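import Pool.Agent.Helper30.SY.St

/-!
# Project SY, module SMO: symmetrise and smooth a filling
-/

set_option autoImplicit false

namespace Pool.Agent.Helper80.SY

open Finset Pool.Agent.Helper30.SY

/-- The three vertices are distinct. -/
private abbrev Ds {n : ℕ} (a b c : Fin n) : Prop := a ≠ b ∧ b ≠ c ∧ c ≠ a

private lemma ds_rot {n : ℕ} {a b c : Fin n} : Ds a b c ↔ Ds b c a :=
  ⟨fun h => ⟨h.2.1, h.2.2, h.1⟩, fun h => ⟨h.2.2, h.1, h.2.1⟩⟩

/-- The smoothed filling. -/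
private noncomputable def sm {n : ℕ} (X : Fin n → Fin n → Fin n → ℝ) (θ : ℝ) (a b c : Fin n) : ℝ :=
  if Ds a b c then (X a b c + X b c a + X c a b) / 3 + θ / n else 0

private lemma sm_pos {n : ℕ} (X : Fin n → Fin n → Fin n → ℝ) (θ : ℝ) {a b c : Fin n} (h : Ds a b c) :
    sm X θ a b c = (X a b c + X b c a + X c a b) / 3 + θ / n := if_pos h

private lemma sm_neg {n : ℕ} (X : Fin n → Fin n → Fin n → ℝ) (θ : ℝ) {a b c : Fin n} (h : ¬ Ds a b c) :
    sm X θ a b c = 0 := if_neg h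

private lemma sm_cy {n : ℕ} (X : Fin n → Fin n → Fin n → ℝ) (θ : ℝ) (a b c : Fin n) :
    sm X θ a b c = sm X θ b c a := by
  by_cases h : Ds a b c
  · rw [sm_pos X θ h, sm_pos X θ (ds_rot.1 h)]
    ring
  · rw [sm_neg X θ h, sm_neg X θ (fun h' => h (ds_rot.2 h'))]

/-- The added flow. -/
private noncomputable def ad {n : ℕ} (θ : ℝ) (u v : Fin n) : ℝ :=
  ∑ w : Fin n, if w ≠ u ∧ w ≠ v then 3 * (θ / n) else 0

private lemma ad_symm {n : ℕ} (θ : ℝ) (u v : Fin n) : ad θ u v = ad θ v u := by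
  unfold ad
  refine Finset.sum_congr rfl fun w _ => ?_
  by_cases h : w ≠ u ∧ w ≠ v
  · rw [if_pos h, if_pos h.symm]
  · rw [if_neg h, if_neg fun h' => h h'.symm]

private lemma ad_le {n : ℕ} {θ : ℝ} (hn : (0 : ℝ) < n) (hθ : 0 < θ) (u v : Fin n) : ad θ u v ≤ 3 * θ := by
  have h0 : (0 : ℝ) ≤ 3 * (θ / n) := by positivity
  have h : ad θ u v ≤ ∑ _w : Fin n, 3 * (θ / n) := by
    unfold ad
    refine Finset.sum_le_sum fun w _ => ?_
    split_ifs
    · exact le_refl _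
    · exact h0
  rw [Finset.sum_const, Finset.card_univ, Fintype.card_fin, nsmul_eq_mul] at h
  have e : (n : ℝ) * (3 * (θ / n)) = 3 * θ := by
    field_simp
  rw [e] at h
  exact h

private lemma fl_sm {n : ℕ} (X : Fin n → Fin n → Fin n → ℝ) (θ : ℝ)
    (h0 : ∀ a b c, ¬ Ds a b c → X a b c = 0) {u v : Fin n} (huv : u ≠ v) :
    fl (sm X θ) u v = fl X u v + ad θ u v := by
  unfold fl ad
  rw [← Finset.sum_add_distrib]
  refine Finset.sum_congr rfl fun w _ => ?_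
  by_cases h : w ≠ u ∧ w ≠ v
  · have h1 : Ds u v w := ⟨huv, h.2.symm, h.1⟩
    have h2 : Ds w u v := ⟨h.1, huv, h.2.symm⟩
    have h3 : Ds v w u := ⟨h.2.symm, h.1, huv⟩
    rw [if_pos h, sm_pos X θ h1, sm_pos X θ h2, sm_pos X θ h3]
    ring
  · have h1 : ¬ Ds u v w := fun h' => h ⟨h'.2.2, h'.2.1.symm⟩
    have h2 : ¬ Ds w u v := fun h' => h ⟨h'.1, h'.2.2.symm⟩
    have h3 : ¬ Ds v w u := fun h' => h ⟨h'.2.1, h'.1.symm⟩
    rw [if_neg h, sm_neg X θ h1, sm_neg X θ h2, sm_neg X θ h3, h0 _ _ _ h1, h0 _ _ _ h2, h0 _ _ _ h3]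
    ring

private lemma fl_sm_diag {n : ℕ} (X : Fin n → Fin n → Fin n → ℝ) (θ : ℝ) (u : Fin n) :
    fl (sm X θ) u u = 0 := by
  unfold fl
  refine Finset.sum_eq_zero fun w _ => ?_
  have h1 : ¬ Ds u u w := fun h' => h'.1 rfl
  have h2 : ¬ Ds w u u := fun h' => h'.2.1 rfl
  have h3 : ¬ Ds u w u := fun h' => h'.2.2 rfl
  rw [sm_neg X θ h1, sm_neg X θ h2, sm_neg X θ h3]
  ring

private lemma sum_rot {n : ℕ} (X : Fin n → Fin n → Fin n → ℝ) :
    ∑ a, ∑ b, ∑ c, X b c a = ∑ a, ∑ b, ∑ c, X a b c := by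
  calc ∑ a, ∑ b, ∑ c, X b c a = ∑ b, ∑ a, ∑ c, X b c a := Finset.sum_comm
    _ = ∑ b, ∑ c, ∑ a, X b c a := Finset.sum_congr rfl fun b _ => Finset.sum_comm

/-- Module SMO. -/
theorem hSMO : StSMO := by
  intro n s X L θ hn hθ hθ' hX
  have hn0 : (0 : ℝ) < n := by exact_mod_cast hn
  have hL : 0 ≤ L := by
    have h1 := hX.nn ⟨0, hn⟩ ⟨0, hn⟩ ⟨0, hn⟩
    have h2 := hX.ub ⟨0, hn⟩ ⟨0, hn⟩ ⟨0, hn⟩
    have h3 := mul_nonneg (h1.trans h2) hn0.le
    rwa [div_mul_cancel₀ _ hn0.ne'] at h3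
  have h0 : ∀ a b c, ¬ Ds a b c → X a b c = 0 := by
    intro a b c h
    by_contra h'
    exact h (hX.sp a b c h')
  have hθn : 0 ≤ θ / n := by positivity
  have hle : ∀ a b c, sm X θ a b c ≤ (X a b c + X b c a + X c a b) / 3 + θ / n := by
    intro a b c
    by_cases h : Ds a b c
    · rw [sm_pos X θ h]
    · rw [sm_neg X θ h]
      have h1 := hX.nn a b c
      have h2 := hX.nn b c a
      have h3 := hX.nn c a b
      linarith
  have hflow : ∀ u v, fl X u v ≤ 3 / 2 → fl (sm X θ) u v ≤ 7 / 4 := by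
    intro u v h
    by_cases huv : u = v
    · subst huv
      rw [fl_sm_diag]
      norm_num
    · rw [fl_sm X θ h0 huv]
      have := ad_le hn0 hθ u v
      linarith
  refine ⟨sm X θ, ⟨?_, ?_, ?_, sm_cy X θ, ?_, ?_, ?_⟩, ?_⟩
  · intro a b c
    by_cases h : Ds a b c
    · rw [sm_pos X θ h]
      have h1 := hX.nn a b c
      have h2 := hX.nn b c a
      have h3 := hX.nn c a b
      linarith
    · rw [sm_neg X θ h]
  · intro a b c
    refine (hle a b c).trans ?_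
    have h1 := hX.ub a b c
    have h2 := hX.ub b c a
    have h3 := hX.ub c a b
    have h4 : θ / n ≤ 1 / n := by
      apply div_le_div_of_nonneg_right _ hn0.le
      linarith
    have h5 : (L + 1) / (n : ℝ) = L / n + 1 / n := add_div _ _ _
    rw [h5]
    linarith
  · intro a b c h
    by_contra h'
    exact h (sm_neg X θ h')
  · intro a b c hab hbc hca
    rw [sm_pos X θ ⟨hab, hbc, hca⟩]
    have h1 := hX.nn a b c
    have h2 := hX.nn b c a
    have h3 := hX.nn c a b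
    linarith
  · intro u v huv
    rw [fl_sm X θ h0 huv, fl_sm X θ h0 huv.symm, ad_symm θ u v, ← hX.bd u v huv]
    ring
  · intro u v
    rcases hX.mn u v with h | h
    · exact Or.inl (hflow u v h)
    · exact Or.inr (hflow v u h)
  · have h1 : ∑ a, ∑ b, ∑ c, sm X θ a b c ≤
        ∑ a, ∑ b, ∑ c, ((X a b c + X b c a + X c a b) / 3 + θ / n) :=
      Finset.sum_le_sum fun a _ => Finset.sum_le_sum fun b _ => Finset.sum_le_sum fun c _ => hle a b c
    have h2 : ∑ a, ∑ b, ∑ c, ((X a b c + X b c a + X c a b) / 3 + θ / n) =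
        (∑ a, ∑ b, ∑ c, X a b c + ∑ a, ∑ b, ∑ c, X b c a + ∑ a, ∑ b, ∑ c, X c a b) / 3 +
          ∑ _a : Fin n, ∑ _b : Fin n, ∑ _c : Fin n, θ / n := by
      simp only [Finset.sum_add_distrib, Finset.sum_div, add_div]
    have h3 : ∑ a, ∑ b, ∑ c, X c a b = ∑ a, ∑ b, ∑ c, X a b c := by
      rw [← sum_rot fun a b c => X c a b]
    have h4 : ∑ _a : Fin n, ∑ _b : Fin n, ∑ _c : Fin n, θ / n = θ * (n : ℝ) ^ 2 := by
      simp only [Finset.sum_const, Finset.card_univ, Fintype.card_fin, nsmul_eq_mul]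
      field_simp
    rw [h2, sum_rot X, h3, h4] at h1
    linarith

end Pool.Agent.Helper80.SY
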